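import Mathlib
import Pool.Agent.Q223.PG.Conf

/-!
# Faces of polytopes through functionals
-/

set_option autoImplicit false

namespace Pool.Agent.Q223.Poly

open Module Pool.Agent.Q223.PG

section basic

variable {ι E : Type*} [NormedAddCommGroup E] [NormedSpace ℝ E] [FiniteDimensional ℝ E]

theorem mem_hull [Fintype ι] (V : ι → E) {y : E} (hy : y ∈ convexHull ℝ (Set.range V)) :
    ∃ w : ι → ℝ, (∀ i, 0 ≤ w i) ∧ ∑ i, w i = 1 ∧ ∑ i, w i • V i = y := by
  classical
  have h : convexHull ℝ (Set.range V) ⊆ {y | ∃ w : ι → ℝ, (∀ i, 0 ≤ w i) ∧ ∑ i, w i = 1 ∧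
      ∑ i, w i • V i = y} := by
    apply convexHull_min
    · rintro _ ⟨i, rfl⟩
      refine ⟨Pi.single i 1, fun j => ?_, by simp, ?_⟩
      · by_cases hj : j = i
        · subst hj; simp
        · simp [hj]
      · rw [Finset.sum_eq_single i]
        · simp
        · intro j _ hj; simp [hj]
        · intro hi; exact absurd (Finset.mem_univ _) hi
    · rintro x ⟨w, hw0, hw1, rfl⟩ y ⟨v, hv0, hv1, rfl⟩ a b ha hb hab
      refine ⟨fun i => a * w i + b * v i, fun i => ?_, ?_, ?_⟩
      · exact add_nonneg (mul_nonneg ha (hw0 i)) (mul_nonneg hb (hv0 i))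
      · rw [Finset.sum_add_distrib, ← Finset.mul_sum, ← Finset.mul_sum, hw1, hv1]; linarith
      · simp only [add_smul, Finset.sum_add_distrib, mul_smul, Finset.smul_sum]
  exact h hy

/-- the face given by a functional -/
theorem face_eq [Finite ι] (V : ι → E) (l : E →ₗ[ℝ] ℝ) (c : ℝ) (hl : ∀ i, l (V i) ≤ c) :
    {y ∈ convexHull ℝ (Set.range V) | l y = c} = convexHull ℝ (V '' {i | l (V i) = c}) ∧
      ∀ y ∈ convexHull ℝ (Set.range V), l y ≤ c := by
  classical
  cases nonempty_fintype ι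
  have hle : ∀ y ∈ convexHull ℝ (Set.range V), l y ≤ c := by
    intro y hy
    have h : convexHull ℝ (Set.range V) ⊆ {y | l y ≤ c} := by
      apply convexHull_min
      · rintro _ ⟨i, rfl⟩; exact hl i
      · exact convex_halfSpace_le l.isLinear c
    exact h hy
  refine ⟨Set.Subset.antisymm ?_ ?_, hle⟩
  · rintro y ⟨hy, hyc⟩
    obtain ⟨w, hw0, hw1, rfl⟩ := mem_hull V hy
    have hz : ∀ i, w i * (c - l (V i)) = 0 := by
      have h1 : ∑ i, w i * (c - l (V i)) = 0 := by
        have h2 : ∑ i, w i * l (V i) = c := by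
          rw [← hyc, map_sum]
          exact Finset.sum_congr rfl fun i _ => by rw [map_smul, smul_eq_mul]
        simp only [mul_sub, Finset.sum_sub_distrib, ← Finset.sum_mul, hw1, h2]
        ring
      intro i
      exact (Finset.sum_eq_zero_iff_of_nonneg fun i _ =>
        mul_nonneg (hw0 i) (sub_nonneg.2 (hl i))).1 h1 i (Finset.mem_univ i)
    have h3 : ∑ i, w i • V i = ∑ i ∈ Finset.univ.filter (fun i => l (V i) = c), w i • V i := by
      rw [Finset.sum_filter]
      refine Finset.sum_congr rfl fun i _ => ?_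
      by_cases hi : l (V i) = c
      · rw [if_pos hi]
      · rw [if_neg hi]
        have : w i = 0 := (mul_eq_zero.1 (hz i)).resolve_right
          (fun h => hi (by linarith))
        rw [this, zero_smul]
    rw [h3]
    refine (convex_convexHull ℝ _).sum_mem (fun i _ => hw0 i) ?_ ?_
    · rw [← hw1, Finset.sum_filter]
      refine Finset.sum_congr rfl fun i _ => ?_
      by_cases hi : l (V i) = c
      · rw [if_pos hi]
      · rw [if_neg hi]
        exact ((mul_eq_zero.1 (hz i)).resolve_right (fun h => hi (by linarith))).symm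
    · intro i hi
      apply subset_convexHull
      exact ⟨i, (Finset.mem_filter.1 hi).2, rfl⟩
  · intro y hy
    refine ⟨convexHull_mono (Set.image_subset_range V _) hy, ?_⟩
    have h : convexHull ℝ (V '' {i | l (V i) = c}) ⊆ {y | l y = c} := by
      apply convexHull_min
      · rintro _ ⟨i, hi, rfl⟩; exact hi
      · exact convex_hyperplane l.isLinear c
    exact h hy

theorem ext_conf [Finite ι] {V : ι → E} (hV : Conf V) :
    (convexHull ℝ (Set.range V)).extremePoints ℝ = Set.range V := by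
  apply Set.Subset.antisymm extremePoints_convexHull_subset
  rintro _ ⟨i, rfl⟩
  apply exposedPoints_subset_extremePoints
  obtain ⟨l, hl⟩ := hV i
  have hl' : ∀ j, l (V j) ≤ l (V i) := fun j => by
    by_cases h : j = i
    · rw [h]
    · exact (hl j h).le
  obtain ⟨h1, h2⟩ := face_eq V l (l (V i)) hl'
  have h3 : {j | l (V j) = l (V i)} = {i} := by
    ext j
    constructor
    · intro hj
      by_contra hne
      exact (hl j hne).ne hj
    · rintro rfl; rfl
  rw [h3, Set.image_singleton, convexHull_singleton] at h1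
  refine ⟨subset_convexHull ℝ _ ⟨i, rfl⟩, LinearMap.toContinuousLinearMap l, fun y hy => ⟨h2 y hy, ?_⟩⟩
  intro hy'
  have h4 : y ∈ ({V i} : Set (E)) := by
    rw [← h1]
    exact ⟨hy, le_antisymm (h2 y hy) hy'⟩
  exact h4

/-- exposed faces through functionals -/
theorem exposed_iff [Finite ι] {V : ι → E} (hV : Conf V) (S : Set ι) (hS : S.Nonempty) :
    IsExposed ℝ (convexHull ℝ (Set.range V)) (convexHull ℝ (V '' S)) ↔
      ∃ (l : E →ₗ[ℝ] ℝ) (c : ℝ), (∀ i ∈ S, l (V i) = c) ∧ ∀ i ∉ S, l (V i) < c := by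
  constructor
  · intro h
    obtain ⟨i0, hi0⟩ := hS
    obtain ⟨l, hl⟩ := h ⟨V i0, subset_convexHull ℝ _ ⟨i0, hi0, rfl⟩⟩
    have hmem : ∀ i ∈ S, ∀ y ∈ convexHull ℝ (Set.range V), l y ≤ l (V i) := by
      intro i hi
      have : V i ∈ convexHull ℝ (V '' S) := subset_convexHull ℝ _ ⟨i, hi, rfl⟩
      rw [hl] at this
      exact this.2
    have hV' : ∀ j, V j ∈ convexHull ℝ (Set.range V) := fun j => subset_convexHull ℝ _ ⟨j, rfl⟩
    refine ⟨(l : E →ₗ[ℝ] ℝ), l (V i0), fun i hi => ?_, fun i hi => ?_⟩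
    · exact le_antisymm (hmem i0 hi0 _ (hV' i)) (hmem i hi _ (hV' i0))
    · refine lt_of_le_of_ne (hmem i0 hi0 _ (hV' i)) (fun heq => ?_)
      have heq' : l (V i) = l (V i0) := heq
      have h1 : V i ∈ convexHull ℝ (V '' S) := by
        rw [hl]
        exact ⟨hV' i, fun y hy => by rw [heq']; exact hmem i0 hi0 y hy⟩
      -- `V i` is a vertex, so it lies in `V '' S`
      obtain ⟨g, hg⟩ := hV i
      have h2 : convexHull ℝ (V '' S) ⊆ {y | g y < g (V i)} := by
        apply convexHull_min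
        · rintro _ ⟨j, hj, rfl⟩
          exact hg j (fun hji => hi (hji ▸ hj))
        · exact convex_halfSpace_lt g.isLinear _
      have h3 : g (V i) < g (V i) := h2 h1
      exact lt_irrefl _ h3
  · rintro ⟨l, c, h1, h2⟩ -
    obtain ⟨i0, hi0⟩ := hS
    have hle : ∀ i, l (V i) ≤ c := fun i => by
      by_cases hi : i ∈ S
      · exact (h1 i hi).le
      · exact (h2 i hi).le
    obtain ⟨h3, h4⟩ := face_eq V l c hle
    have h5 : {i | l (V i) = c} = S := by
      ext i
      constructor
      · intro hi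
        by_contra hne
        exact (h2 i hne).ne hi
      · exact h1 i
    rw [h5] at h3
    refine ⟨LinearMap.toContinuousLinearMap l, ?_⟩
    rw [← h3]
    ext y
    constructor
    · rintro ⟨hy, hyc⟩
      refine ⟨hy, fun z hz => ?_⟩
      show l z ≤ l y
      rw [hyc]; exact h4 z hz
    · rintro ⟨hy, hy'⟩
      refine ⟨hy, le_antisymm (h4 y hy) ?_⟩
      rw [← h1 i0 hi0]
      exact hy' _ (subset_convexHull ℝ _ ⟨i0, rfl⟩)

theorem adj_iff [Finite ι] {V : ι → E} (hV : Conf V) (i j : ι) :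
    IsExposed ℝ (convexHull ℝ (Set.range V)) (segment ℝ (V i) (V j)) ↔
      ∃ l : E →ₗ[ℝ] ℝ, l (V i) = l (V j) ∧ ∀ m, m ≠ i → m ≠ j → l (V m) < l (V i) := by
  have h := exposed_iff hV {i, j} ⟨i, Or.inl rfl⟩
  rw [Set.image_pair, convexHull_pair] at h
  rw [h]
  constructor
  · rintro ⟨l, c, h1, h2⟩
    refine ⟨l, (h1 i (Or.inl rfl)).trans (h1 j (Or.inr rfl)).symm, fun m hm hm' => ?_⟩
    rw [h1 i (Or.inl rfl)]
    exact h2 m (by rintro (h | h); exacts [hm h, hm' h])
  · rintro ⟨l, h1, h2⟩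
    refine ⟨l, l (V i), ?_, fun m hm => ?_⟩
    · rintro m (rfl | rfl)
      · rfl
      · exact h1.symm
    · exact h2 m (fun h => hm (Or.inl h)) (fun h => hm (Or.inr h))

end basic

end Pool.Agent.Q223.Poly
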