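import Mathlib
import Pool.Agent.Q223.Poly

/-!
# The dicyclic group of order twelve acting on the quaternions by left multiplication
-/

set_option autoImplicit false

namespace Pool.Agent.Q223.Dic

open Quaternion

/-- primitive sixth root of unity -/
noncomputable def u : ℍ[ℝ] := ⟨1 / 2, √3 / 2, 0, 0⟩

/-- the quaternion `j` -/
noncomputable def j : ℍ[ℝ] := ⟨0, 0, 1, 0⟩

@[simp] lemma u_re : u.re = 1 / 2 := rfl
@[simp] lemma u_imI : u.imI = √3 / 2 := rfl
@[simp] lemma u_imJ : u.imJ = 0 := rfl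
@[simp] lemma u_imK : u.imK = 0 := rfl
@[simp] lemma j_re : j.re = 0 := rfl
@[simp] lemma j_imI : j.imI = 0 := rfl
@[simp] lemma j_imJ : j.imJ = 1 := rfl
@[simp] lemma j_imK : j.imK = 0 := rfl

lemma s3 : √3 * √3 = (3 : ℝ) := Real.mul_self_sqrt (by norm_num)

lemma u2 : u ^ 2 = u - 1 := by
  rw [pow_two]
  ext <;> simp <;> ring_nf <;> nlinarith [s3]

lemma u3 : u ^ 3 = -1 := by
  rw [pow_succ, u2, sub_mul, one_mul, ← pow_two, u2]; abel

lemma u6 : u ^ 6 = 1 := by
  have : u ^ 6 = (u ^ 3) ^ 2 := by rw [← pow_mul]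
  rw [this, u3]; simp

lemma jj : j * j = -1 := by
  ext <;> simp

lemma ju : j * u = (1 - u) * j := by
  ext <;> simp <;> ring

lemma u5 : u ^ 5 = 1 - u := by
  have : u ^ 5 = u ^ 3 * u ^ 2 := by rw [← pow_add]
  rw [this, u3, u2]; simp

lemma ju' : j * u = u ^ 5 * j := by rw [u5, ju]

lemma j_pow (n : ℕ) : j * u ^ n = u ^ (5 * n) * j := by
  induction n with
  | zero => simp
  | succ n ih =>
    rw [pow_succ, ← mul_assoc, ih, mul_assoc, ju', ← mul_assoc, ← pow_add]
    rfl

/-- the group elements -/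
def S : Set ℍ[ℝ] := {q | ∃ n : ℕ, q = u ^ n ∨ q = u ^ n * j}

lemma S_one : (1 : ℍ[ℝ]) ∈ S := ⟨0, Or.inl (by simp)⟩

lemma S_u : u ∈ S := ⟨1, Or.inl (by simp)⟩

lemma S_j : j ∈ S := ⟨0, Or.inr (by simp)⟩

lemma S_mul {p q : ℍ[ℝ]} (hp : p ∈ S) (hq : q ∈ S) : p * q ∈ S := by
  obtain ⟨n, rfl | rfl⟩ := hp <;> obtain ⟨m, rfl | rfl⟩ := hq
  · exact ⟨n + m, Or.inl (by rw [pow_add])⟩
  · exact ⟨n + m, Or.inr (by rw [pow_add, mul_assoc])⟩
  · refine ⟨n + 5 * m, Or.inr ?_⟩
    rw [mul_assoc, j_pow, pow_add, mul_assoc]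
  · refine ⟨n + 5 * m + 3, Or.inl ?_⟩
    rw [mul_assoc, ← mul_assoc j, j_pow, mul_assoc, jj, pow_add, pow_add, u3, mul_assoc]

lemma norm_u : ‖u‖ = 1 := by
  have h : Quaternion.normSq u = 1 := by
    rw [Quaternion.normSq_def']; simp; nlinarith [s3]
  rw [Quaternion.normSq_eq_norm_mul_self] at h
  nlinarith [norm_nonneg u]

lemma norm_j : ‖j‖ = 1 := by
  have h : Quaternion.normSq j = 1 := by
    rw [Quaternion.normSq_def']; simp
  rw [Quaternion.normSq_eq_norm_mul_self] at h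
  nlinarith [norm_nonneg j]

lemma norm_S {q : ℍ[ℝ]} (hq : q ∈ S) : ‖q‖ = 1 := by
  obtain ⟨n, rfl | rfl⟩ := hq
  · rw [norm_pow, norm_u, one_pow]
  · rw [norm_mul, norm_pow, norm_u, norm_j, one_pow, one_mul]

lemma ne_zero_S {q : ℍ[ℝ]} (hq : q ∈ S) : q ≠ 0 := by
  intro h
  have := norm_S hq
  rw [h, norm_zero] at this
  exact zero_ne_one this

lemma S_inv {q : ℍ[ℝ]} (hq : q ∈ S) : q⁻¹ ∈ S := by
  obtain ⟨n, rfl | rfl⟩ := hq
  · refine ⟨5 * n, Or.inl (inv_eq_of_mul_eq_one_right ?_)⟩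
    rw [← pow_add, show n + 5 * n = 6 * n by ring, pow_mul, u6, one_pow]
  · refine ⟨n + 3, Or.inr (inv_eq_of_mul_eq_one_right ?_)⟩
    rw [mul_assoc, ← mul_assoc j, j_pow, mul_assoc, jj, ← mul_assoc, ← pow_add,
      show n + 5 * (n + 3) = 6 * (n + 2) + 3 by ring, pow_add, pow_mul, u6, one_pow, u3]
    simp

/-- explicit list -/
lemma S_list {q : ℍ[ℝ]} (hq : q ∈ S) :
    (q = 1 ∨ q = u ∨ q = u - 1 ∨ q = -1 ∨ q = -u ∨ q = 1 - u) ∨
    (q = j ∨ q = u * j ∨ q = (u - 1) * j ∨ q = -j ∨ q = -(u * j) ∨ q = (1 - u) * j) := by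
  have h4 : u ^ 4 = -u := by
    have : u ^ 4 = u ^ 3 * u := by rw [← pow_succ]
    rw [this, u3]; simp
  have hlist : ∀ n : ℕ, u ^ n = 1 ∨ u ^ n = u ∨ u ^ n = u - 1 ∨ u ^ n = -1 ∨ u ^ n = -u ∨
      u ^ n = 1 - u := by
    intro n
    have h1 : u ^ n = u ^ (n % 6) := by
      conv_lhs => rw [← Nat.div_add_mod n 6, pow_add, pow_mul, u6, one_pow, one_mul]
    rw [h1]
    have h2 : n % 6 < 6 := Nat.mod_lt _ (by norm_num)
    interval_cases n % 6
    · left; simp
    · right; left; simp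
    · right; right; left; exact u2
    · right; right; right; left; exact u3
    · right; right; right; right; left; exact h4
    · right; right; right; right; right; exact u5
  obtain ⟨n, rfl | rfl⟩ := hq
  · left; exact hlist n
  · right
    rcases hlist n with h | h | h | h | h | h
    · left; rw [h, one_mul]
    · right; left; rw [h]
    · right; right; left; rw [h]
    · right; right; right; left; rw [h]; simp
    · right; right; right; right; left; rw [h]; simp
    · right; right; right; right; right; rw [h]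

lemma S_finite : S.Finite := by
  apply Set.Finite.subset (s := {1, u, u - 1, -1, -u, 1 - u, j, u * j, (u - 1) * j, -j, -(u * j),
    (1 - u) * j}) (Set.toFinite _)
  intro q hq
  simp only [Set.mem_insert_iff, Set.mem_singleton_iff]
  rcases S_list hq with h | h
  · rcases h with h | h | h | h | h | h <;> simp [h]
  · rcases h with h | h | h | h | h | h <;> simp [h]

lemma inner_mul (p q w : ℍ[ℝ]) : inner ℝ (p * w) (q * w) = ‖w‖ ^ 2 * (p * star q).re := by
  rw [Quaternion.inner_def, star_mul, show p * w * (star w * star q) = p * (w * star w) * star q by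
    simp only [mul_assoc], Quaternion.self_mul_star, Quaternion.normSq_eq_norm_mul_self]
  rw [show p * (((‖w‖ * ‖w‖ : ℝ) : ℍ[ℝ])) * star q = ((‖w‖ * ‖w‖ : ℝ) : ℍ[ℝ]) * (p * star q) by
    rw [← Quaternion.coe_commutes, mul_assoc]]
  rw [Quaternion.coe_mul_eq_smul]
  simp [pow_two]

lemma star_u : star u = 1 - u := by
  ext <;> simp <;> ring

lemma star_j : star j = -j := by
  ext <;> simp

/-- values of the functional of the vertex `1` -/
lemma re_lt {q : ℍ[ℝ]} (hq : q ∈ S) (h1 : q ≠ 1) : q.re < 1 := by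
  rcases S_list hq with h | h
  · rcases h with rfl | rfl | rfl | rfl | rfl | rfl
    · exact absurd rfl h1
    all_goals simp; try norm_num
  · rcases h with rfl | rfl | rfl | rfl | rfl | rfl
    all_goals simp

/-- the functional of the edge `1, u` -/
lemma re_edge1 {q : ℍ[ℝ]} (hq : q ∈ S) (h1 : q ≠ 1) (h2 : q ≠ u) :
    q.re + (q * star u).re < 3 / 2 := by
  rw [star_u]
  rcases S_list hq with h | h
  · rcases h with rfl | rfl | rfl | rfl | rfl | rfl
    · exact absurd rfl h1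
    · exact absurd rfl h2
    all_goals simp; nlinarith [s3]
  · rcases h with rfl | rfl | rfl | rfl | rfl | rfl
    all_goals simp

/-- the functional of the edge `1, j` -/
lemma re_edge2 {q : ℍ[ℝ]} (hq : q ∈ S) (h1 : q ≠ 1) (h2 : q ≠ j) :
    q.re + (q * star j).re < 1 := by
  rw [star_j]
  rcases S_list hq with h | h
  · rcases h with rfl | rfl | rfl | rfl | rfl | rfl
    · exact absurd rfl h1
    all_goals simp; try norm_num
  · rcases h with rfl | rfl | rfl | rfl | rfl | rfl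
    · exact absurd rfl h2
    all_goals simp; try norm_num

end Pool.Agent.Q223.Dic
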