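import Mathlib

/-!
# Lorentz matrices acting on balls, spheres, caps and convex sets
-/

set_option autoImplicit false

namespace Pool.Agent.Q223.Mob

open Matrix

variable {D : ℕ}

/-- signature matrix -/
noncomputable def J (D : ℕ) : Matrix (Option (Fin D)) (Option (Fin D)) ℝ :=
  Matrix.diagonal (fun i => Option.elim i (-1 : ℝ) (fun _ => (1 : ℝ)))

/-- the Lorentz condition -/
def IsL (M : Matrix (Option (Fin D)) (Option (Fin D)) ℝ) : Prop :=
  M.transpose * J D * M = J D

/-- homogeneous coordinates -/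
def lft (x : Fin D → ℝ) : Option (Fin D) → ℝ := fun i => Option.elim i (1 : ℝ) x

/-- projective map -/
noncomputable def mb (M : Matrix (Option (Fin D)) (Option (Fin D)) ℝ) (x : Fin D → ℝ) : Fin D → ℝ :=
  fun j => (M *ᵥ lft x) (some j) / (M *ᵥ lft x) none

/-- the form -/
noncomputable def Q (x y : Option (Fin D) → ℝ) : ℝ := x ⬝ᵥ (J D *ᵥ y)

lemma Q_eq (x y : Option (Fin D) → ℝ) :
    Q x y = -(x none * y none) + ∑ i : Fin D, x (some i) * y (some i) := by
  unfold Q J
  rw [dotProduct, Fintype.sum_option]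
  simp only [Matrix.mulVec_diagonal, Option.elim]
  congr 1
  · ring
  · refine Finset.sum_congr rfl fun i _ => by ring

lemma Q_mulVec {M : Matrix (Option (Fin D)) (Option (Fin D)) ℝ} (hM : IsL M)
    (x y : Option (Fin D) → ℝ) : Q (M *ᵥ x) (M *ᵥ y) = Q x y := by
  have h : Q x y = x ⬝ᵥ ((M.transpose * J D * M) *ᵥ y) := by rw [hM]; rfl
  rw [h]
  unfold Q
  rw [← Matrix.mulVec_mulVec, ← Matrix.mulVec_mulVec, Matrix.dotProduct_mulVec x,
    Matrix.vecMul_transpose]

lemma JJ : J D * J D = 1 := by
  unfold J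
  rw [Matrix.diagonal_mul_diagonal, ← Matrix.diagonal_one]
  congr 1
  ext i
  cases i <;> simp

lemma inv_left {M : Matrix (Option (Fin D)) (Option (Fin D)) ℝ} (hM : IsL M) :
    (J D * M.transpose * J D) * M = 1 := by
  have : (J D * M.transpose * J D) * M = J D * (M.transpose * J D * M) := by
    simp only [Matrix.mul_assoc]
  rw [this, hM, JJ]

lemma inv_right {M : Matrix (Option (Fin D)) (Option (Fin D)) ℝ} (hM : IsL M) :
    M * (J D * M.transpose * J D) = 1 :=
  mul_eq_one_comm.1 (inv_left hM)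

lemma MJM {M : Matrix (Option (Fin D)) (Option (Fin D)) ℝ} (hM : IsL M) :
    M * J D * M.transpose = J D := by
  have h := inv_right hM
  calc M * J D * M.transpose = (M * (J D * M.transpose * J D)) * J D := by
        simp only [Matrix.mul_assoc, JJ, Matrix.mul_one]
    _ = J D := by rw [h, Matrix.one_mul]

lemma row_none {M : Matrix (Option (Fin D)) (Option (Fin D)) ℝ} (hM : IsL M) :
    ∑ j : Fin D, M none (some j) ^ 2 = M none none ^ 2 - 1 := by
  have h := congrFun (congrFun (MJM hM) none) none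
  rw [Matrix.mul_apply, Fintype.sum_option] at h
  simp only [J, Matrix.mul_diagonal, Matrix.transpose_apply, Option.elim, Matrix.diagonal_apply_eq]
    at h
  have h2 : ∑ j : Fin D, M none (some j) ^ 2 = ∑ j : Fin D, M none (some j) * 1 * M none (some j) :=
    Finset.sum_congr rfl fun i _ => by ring
  rw [h2]
  linarith

/-- the denominator -/
noncomputable def tau (M : Matrix (Option (Fin D)) (Option (Fin D)) ℝ) (x : Fin D → ℝ) : ℝ :=
  (M *ᵥ lft x) none

lemma tau_eq (M : Matrix (Option (Fin D)) (Option (Fin D)) ℝ) (x : Fin D → ℝ) :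
    tau M x = M none none + ∑ j : Fin D, M none (some j) * x j := by
  unfold tau Matrix.mulVec
  rw [dotProduct, Fintype.sum_option]
  simp [lft]

lemma lft_comb (x y : Fin D → ℝ) (s t : ℝ) (hst : s + t = 1) :
    lft (s • x + t • y) = s • lft x + t • lft y := by
  ext i
  cases i with
  | none => simp [lft, hst]
  | some j => simp [lft]

lemma tau_comb (M : Matrix (Option (Fin D)) (Option (Fin D)) ℝ) (x y : Fin D → ℝ) (s t : ℝ)
    (hst : s + t = 1) : tau M (s • x + t • y) = s * tau M x + t * tau M y := by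
  unfold tau
  rw [lft_comb x y s t hst, Matrix.mulVec_add, Matrix.mulVec_smul, Matrix.mulVec_smul]
  simp

lemma mulVec_lft {M : Matrix (Option (Fin D)) (Option (Fin D)) ℝ} {x : Fin D → ℝ}
    (h : tau M x ≠ 0) : M *ᵥ lft x = tau M x • lft (mb M x) := by
  ext i
  cases i with
  | none => simp [lft, tau]
  | some j =>
    simp only [Pi.smul_apply, smul_eq_mul]
    show (M *ᵥ lft x) (some j) = tau M x * ((M *ᵥ lft x) (some j) / tau M x)
    field_simp

/-- the sign of the denominator on the ball -/
lemma tau_ball {M : Matrix (Option (Fin D)) (Option (Fin D)) ℝ} (hM : IsL M) (x : Fin D → ℝ)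
    (hx : ∑ i, x i ^ 2 ≤ 1) : 0 < tau M x * M none none := by
  rw [tau_eq]
  set a := M none none
  set b := ∑ j : Fin D, M none (some j) * x j with hb
  have h1 : b ^ 2 ≤ (∑ j : Fin D, M none (some j) ^ 2) * ∑ j, x j ^ 2 :=
    Finset.sum_mul_sq_le_sq_mul_sq _ _ _
  rw [row_none hM] at h1
  have h0 : 0 ≤ a ^ 2 - 1 := by
    rw [← row_none hM]
    exact Finset.sum_nonneg fun i _ => sq_nonneg _
  have h2 : b ^ 2 ≤ a ^ 2 - 1 := h1.trans (by nlinarith)
  have h3 : |b| < |a| := by
    apply sq_lt_sq.1
    linarith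
  have h4 : -(|a| * |a|) < b * a := by
    have : |b * a| < |a| * |a| := by
      rw [abs_mul]
      exact mul_lt_mul_of_pos_right h3 (lt_of_le_of_lt (abs_nonneg b) h3)
    exact (abs_lt.1 this).1
  have h5 : |a| * |a| = a * a := by rw [abs_mul_abs_self]
  nlinarith

lemma lft_Q (x y : Fin D → ℝ) : Q (lft x) (lft y) = -1 + ∑ i, x i * y i := by
  rw [Q_eq]
  simp [lft]

lemma lft_inj {x y : Fin D → ℝ} (h : lft x = lft y) : x = y := by
  ext i
  exact congrFun h (some i)

lemma prod_mb {M : Matrix (Option (Fin D)) (Option (Fin D)) ℝ} (hM : IsL M) {x y : Fin D → ℝ}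
    (hx : tau M x ≠ 0) (hy : tau M y ≠ 0) :
    -1 + ∑ i, x i * y i = tau M x * tau M y * (-1 + ∑ i, mb M x i * mb M y i) := by
  rw [← lft_Q, ← lft_Q, ← Q_mulVec hM (lft x) (lft y), mulVec_lft hx, mulVec_lft hy]
  simp only [Q_eq, Pi.smul_apply, smul_eq_mul, mul_add, Finset.mul_sum]
  congr 1
  · ring
  · refine Finset.sum_congr rfl fun i _ => by ring

lemma mb_inj {M : Matrix (Option (Fin D)) (Option (Fin D)) ℝ} (hM : IsL M) {x y : Fin D → ℝ}
    (hx : tau M x ≠ 0) (hy : tau M y ≠ 0) (h : mb M x = mb M y) : x = y := by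
  have h1 : M *ᵥ (lft x) = M *ᵥ ((tau M x / tau M y) • lft y) := by
    rw [Matrix.mulVec_smul, mulVec_lft hx, mulVec_lft hy, h, smul_smul, div_mul_cancel₀ _ hy]
  have h2 : lft x = (tau M x / tau M y) • lft y := by
    have := congrArg (fun v => (J D * M.transpose * J D) *ᵥ v) h1
    simpa only [Matrix.mulVec_mulVec, inv_left hM, Matrix.one_mulVec] using this
  have h3 : tau M x / tau M y = 1 := by
    have := congrFun h2 none
    simpa [lft] using this.symm
  rw [h3, one_smul] at h2
  exact lft_inj h2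

lemma mb_sphere {M : Matrix (Option (Fin D)) (Option (Fin D)) ℝ} (hM : IsL M) :
    Set.BijOn (mb M) {x | ∑ i, x i ^ 2 = 1} {x | ∑ i, x i ^ 2 = 1} := by
  have hne : ∀ x ∈ {x : Fin D → ℝ | ∑ i, x i ^ 2 = 1}, tau M x ≠ 0 := by
    intro x hx h0
    have := tau_ball hM x (le_of_eq hx)
    rw [h0, zero_mul] at this
    exact lt_irrefl _ this
  refine ⟨?_, ?_, ?_⟩
  · intro x hx
    have h1 := prod_mb hM (hne x hx) (hne x hx)
    have hx' : ∑ i, x i * x i = 1 := by
      rw [← show ∑ i, x i ^ 2 = 1 from hx]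
      exact Finset.sum_congr rfl fun i _ => by ring
    rw [hx'] at h1
    have h2 : -1 + ∑ i, mb M x i * mb M x i = 0 := by
      have h3 : tau M x * tau M x ≠ 0 := mul_ne_zero (hne x hx) (hne x hx)
      have h4 : tau M x * tau M x * (-1 + ∑ i, mb M x i * mb M x i) = 0 := by
        rw [← h1]; ring
      exact (mul_eq_zero.1 h4).resolve_left h3
    show ∑ i, mb M x i ^ 2 = 1
    have h5 : ∑ i, mb M x i ^ 2 = ∑ i, mb M x i * mb M x i :=
      Finset.sum_congr rfl fun i _ => by ring
    rw [h5]
    linarith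
  · intro x hx y hy h
    exact mb_inj hM (hne x hx) (hne y hy) h
  · intro y hy
    set N := J D * M.transpose * J D with hN
    set z := N *ᵥ lft y with hz
    have hMz : M *ᵥ z = lft y := by
      rw [hz, Matrix.mulVec_mulVec, inv_right hM, Matrix.one_mulVec]
    have hQ : Q z z = 0 := by
      rw [← Q_mulVec hM, hMz, lft_Q]
      have : ∑ i, y i * y i = 1 := by
        rw [← show ∑ i, y i ^ 2 = 1 from hy]
        exact Finset.sum_congr rfl fun i _ => by ring
      rw [this]; ring
    rw [Q_eq] at hQ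
    have hz0 : z none ≠ 0 := by
      intro h0
      rw [h0] at hQ
      have h1 : ∑ i : Fin D, z (some i) * z (some i) = 0 := by linarith
      have h2 : ∀ i : Fin D, z (some i) = 0 := by
        intro i
        have := (Finset.sum_eq_zero_iff_of_nonneg (fun i _ => mul_self_nonneg (z (some i)))).1 h1 i
          (Finset.mem_univ i)
        exact mul_self_eq_zero.1 this
      have h3 : z = 0 := by
        ext i
        cases i with
        | none => exact h0
        | some j => exact h2 j
      rw [h3, Matrix.mulVec_zero] at hMz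
      have := congrFun hMz none
      simp [lft] at this
    have hx : lft (fun i => z (some i) / z none) = (z none)⁻¹ • z := by
      ext i
      cases i with
      | none => simp [lft, hz0]
      | some j => simp [lft]; ring
    have hMx : M *ᵥ lft (fun i => z (some i) / z none) = (z none)⁻¹ • lft y := by
      rw [hx, Matrix.mulVec_smul, hMz]
    refine ⟨fun i => z (some i) / z none, ?_, ?_⟩
    · show ∑ i, (z (some i) / z none) ^ 2 = 1
      have h1 : ∑ i : Fin D, z (some i) * z (some i) = z none * z none := by linarith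
      have h2 : ∑ i, (z (some i) / z none) ^ 2 = (∑ i : Fin D, z (some i) * z (some i)) /
          (z none * z none) := by
        rw [Finset.sum_div]
        refine Finset.sum_congr rfl fun i _ => ?_
        field_simp
      rw [h2, h1, div_self (mul_ne_zero hz0 hz0)]
    · ext j
      unfold mb
      rw [hMx]
      simp only [lft, Pi.smul_apply, smul_eq_mul, Option.elim]
      field_simp

lemma sign_const {M : Matrix (Option (Fin D)) (Option (Fin D)) ℝ} {P : Set (Fin D → ℝ)}
    (hP : Convex ℝ P) (hne : ∀ x ∈ P, tau M x ≠ 0) {x y : Fin D → ℝ} (hx : x ∈ P) (hy : y ∈ P) :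
    0 < tau M x * tau M y := by
  rcases lt_or_ge 0 (tau M x * tau M y) with h | h
  · exact h
  exfalso
  have hxn := hne x hx
  have hyn := hne y hy
  have hlt : tau M x * tau M y < 0 := lt_of_le_of_ne h (mul_ne_zero hxn hyn)
  have hd : tau M y - tau M x ≠ 0 := by
    intro h0
    have : tau M x = tau M y := by linarith
    rw [this] at hlt
    nlinarith [mul_self_nonneg (tau M y)]
  set s := tau M y / (tau M y - tau M x) with hs
  set t := -tau M x / (tau M y - tau M x) with ht
  have hst : s + t = 1 := by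
    rw [hs, ht, ← add_div]
    rw [← sub_eq_add_neg, div_self hd]
  have hs0 : 0 ≤ s := by
    have : s = (tau M y * (tau M y - tau M x)) / ((tau M y - tau M x) * (tau M y - tau M x)) := by
      rw [hs]; field_simp
    rw [this]
    apply div_nonneg
    · nlinarith [mul_self_nonneg (tau M y)]
    · exact mul_self_nonneg _
  have ht0 : 0 ≤ t := by
    have : t = (-tau M x * (tau M y - tau M x)) / ((tau M y - tau M x) * (tau M y - tau M x)) := by
      rw [ht]; field_simp
    rw [this]
    apply div_nonneg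
    · nlinarith [mul_self_nonneg (tau M x)]
    · exact mul_self_nonneg _
  have hz := hP hx hy hs0 ht0 hst
  apply hne _ hz
  rw [tau_comb M x y s t hst, hs, ht]
  field_simp
  ring

lemma mb_comb {M : Matrix (Option (Fin D)) (Option (Fin D)) ℝ} {x y : Fin D → ℝ}
    (hx : tau M x ≠ 0) (hy : tau M y ≠ 0) {s t : ℝ} (hst : s + t = 1)
    (hz : tau M (s • x + t • y) ≠ 0) :
    mb M (s • x + t • y) = (s * tau M x / tau M (s • x + t • y)) • mb M x +
      (t * tau M y / tau M (s • x + t • y)) • mb M y := by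
  have h1 : M *ᵥ lft (s • x + t • y) = s • (tau M x • lft (mb M x)) + t • (tau M y • lft (mb M y)) := by
    rw [lft_comb x y s t hst, Matrix.mulVec_add, Matrix.mulVec_smul, Matrix.mulVec_smul,
      mulVec_lft hx, mulVec_lft hy]
  ext j
  have h2 := congrFun h1 (some j)
  simp only [Pi.add_apply, Pi.smul_apply, smul_eq_mul, lft, Option.elim] at h2
  have h3 : mb M (s • x + t • y) j = (M *ᵥ lft (s • x + t • y)) (some j) / tau M (s • x + t • y) := rfl
  have h4 : (M *ᵥ lft (s • x + t • y)) (some j) = s * (tau M x * mb M x j) + t * (tau M y * mb M y j) := h2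
  rw [h3, h4]
  simp only [Pi.add_apply, Pi.smul_apply, smul_eq_mul]
  field_simp

/-- extreme points are mapped to extreme points -/
lemma mb_extreme {M : Matrix (Option (Fin D)) (Option (Fin D)) ℝ} (hM : IsL M)
    {P : Set (Fin D → ℝ)} (hP : Convex ℝ P) (hne : ∀ x ∈ P, tau M x ≠ 0) :
    mb M '' P.extremePoints ℝ = (mb M '' P).extremePoints ℝ := by
  apply Set.Subset.antisymm
  · rintro _ ⟨x, hx, rfl⟩
    rw [mem_extremePoints] at hx ⊢
    refine ⟨Set.mem_image_of_mem _ hx.1, ?_⟩
    rintro _ ⟨x1, hx1, rfl⟩ _ ⟨x2, hx2, rfl⟩ ⟨s, t, hs, ht, hst, hxy⟩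
    have h12 : 0 < tau M x1 * tau M x2 := sign_const hP hne hx1 hx2
    have hn1 := hne x1 hx1
    have hn2 := hne x2 hx2
    -- the corresponding convex combination
    set K := s / tau M x1 + t / tau M x2 with hK
    have hK0 : 0 < K * tau M x1 := by
      have : K * tau M x1 = s + t * (tau M x1 * tau M x2) / (tau M x2 * tau M x2) := by
        rw [hK]; field_simp
      rw [this]
      have : 0 < t * (tau M x1 * tau M x2) / (tau M x2 * tau M x2) :=
        div_pos (mul_pos ht h12) (mul_self_pos.2 hn2)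
      linarith
    have hKn : K ≠ 0 := fun h => by rw [h, zero_mul] at hK0; exact lt_irrefl _ hK0
    have hK2 : 0 < K * tau M x2 := by
      have : K * tau M x2 = (K * tau M x1) * (tau M x1 * tau M x2) / (tau M x1 * tau M x1) := by
        field_simp
      rw [this]
      exact div_pos (mul_pos hK0 h12) (mul_self_pos.2 hn1)
    have ha : 0 < s / tau M x1 / K := by
      have : s / tau M x1 / K = s / (K * tau M x1) := by field_simp
      rw [this]; positivity
    have hb : 0 < t / tau M x2 / K := by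
      have : t / tau M x2 / K = t / (K * tau M x2) := by field_simp
      rw [this]; positivity
    have hab : s / tau M x1 / K + t / tau M x2 / K = 1 := by
      rw [← add_div, ← hK, div_self hKn]
    have hzP : (s / tau M x1 / K) • x1 + (t / tau M x2 / K) • x2 ∈ P :=
      hP hx1 hx2 ha.le hb.le hab
    have hzn := hne _ hzP
    have hz : mb M ((s / tau M x1 / K) • x1 + (t / tau M x2 / K) • x2) = mb M x := by
      rw [mb_comb hn1 hn2 hab hzn]
      have hτ : tau M ((s / tau M x1 / K) • x1 + (t / tau M x2 / K) • x2) = 1 / K := by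
        rw [tau_comb M x1 x2 _ _ hab]
        field_simp
        linarith
      rw [hτ, ← hxy]
      congr 1
      · congr 1; field_simp
      · congr 1; field_simp
    have hxe := mb_inj hM hzn (hne x hx.1) hz
    have := hx.2 x1 hx1 x2 hx2 ⟨_, _, ha, hb, hab, hxe⟩
    rw [this.1, this.2]
    exact ⟨rfl, rfl⟩
  · rintro _ hy
    rw [mem_extremePoints] at hy
    obtain ⟨⟨x, hx, rfl⟩, hy2⟩ := hy
    refine ⟨x, ?_, rfl⟩
    rw [mem_extremePoints]
    refine ⟨hx, ?_⟩
    rintro x1 hx1 x2 hx2 ⟨s, t, hs, ht, hst, hxy⟩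
    have hn1 := hne x1 hx1
    have hn2 := hne x2 hx2
    have hnx := hne x hx
    have hzn : tau M (s • x1 + t • x2) ≠ 0 := by rw [hxy]; exact hnx
    have hc := mb_comb hn1 hn2 hst hzn
    rw [hxy] at hc
    have hτ := tau_comb M x1 x2 s t hst
    rw [hxy] at hτ
    have h1x : 0 < tau M x1 * tau M x := sign_const hP hne hx1 hx
    have h2x : 0 < tau M x2 * tau M x := sign_const hP hne hx2 hx
    have ha : 0 < s * tau M x1 / tau M x := by
      have : s * tau M x1 / tau M x = s * (tau M x1 * tau M x) / (tau M x * tau M x) := by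
        field_simp
      rw [this]; exact div_pos (mul_pos hs h1x) (mul_self_pos.2 hnx)
    have hb : 0 < t * tau M x2 / tau M x := by
      have : t * tau M x2 / tau M x = t * (tau M x2 * tau M x) / (tau M x * tau M x) := by
        field_simp
      rw [this]; exact div_pos (mul_pos ht h2x) (mul_self_pos.2 hnx)
    have hab : s * tau M x1 / tau M x + t * tau M x2 / tau M x = 1 := by
      rw [← add_div, ← hτ, div_self hnx]
    have := hy2 _ (Set.mem_image_of_mem _ hx1) _ (Set.mem_image_of_mem _ hx2)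
      ⟨_, _, ha, hb, hab, hc.symm⟩
    exact ⟨mb_inj hM hn1 hnx this.1, mb_inj hM hn2 hnx this.2⟩

/-- the image of a cap -/
lemma mb_cap {M : Matrix (Option (Fin D)) (Option (Fin D)) ℝ} (hM : IsL M)
    {P : Set (Fin D → ℝ)} (hP : Convex ℝ P) (hne : ∀ x ∈ P, tau M x ≠ 0)
    (hPb : ∃ p ∈ P, ∑ i, p i ^ 2 ≤ 1) {v : Fin D → ℝ} (hv : v ∈ P) :
    mb M '' {x | ∑ i, x i ^ 2 = 1 ∧ 1 ≤ ∑ i, x i * v i} =
      {x | ∑ i, x i ^ 2 = 1 ∧ 1 ≤ ∑ i, x i * mb M v i} := by
  obtain ⟨p, hp, hp1⟩ := hPb
  have hnv := hne v hv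
  have hvp : 0 < tau M v * tau M p := sign_const hP hne hv hp
  have hpa := tau_ball hM p hp1
  have hkey : ∀ x : Fin D → ℝ, ∑ i, x i ^ 2 = 1 → tau M x ≠ 0 ∧ 0 < tau M x * tau M v := by
    intro x hx
    have hxa := tau_ball hM x (le_of_eq hx)
    have h1 : 0 < (tau M x * M none none) * (tau M v * tau M p) * (tau M p * M none none) := by
      positivity
    have h2 : (tau M x * M none none) * (tau M v * tau M p) * (tau M p * M none none) =
        (tau M x * tau M v) * (M none none ^ 2 * tau M p ^ 2) := by ring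
    rw [h2] at h1
    have h3 : 0 ≤ M none none ^ 2 * tau M p ^ 2 := by positivity
    have h4 : 0 < tau M x * tau M v := by
      by_contra hcon
      push Not at hcon
      have := mul_nonpos_of_nonpos_of_nonneg hcon h3
      linarith
    refine ⟨?_, h4⟩
    intro h0
    rw [h0, zero_mul] at h4
    exact lt_irrefl _ h4
  have hcap : ∀ x : Fin D → ℝ, ∑ i, x i ^ 2 = 1 →
      (1 ≤ ∑ i, x i * v i ↔ 1 ≤ ∑ i, mb M x i * mb M v i) := by
    intro x hx
    obtain ⟨hnx, hpos⟩ := hkey x hx
    have h := prod_mb hM hnx hnv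
    constructor
    · intro h1
      by_contra hcon
      push Not at hcon
      have : tau M x * tau M v * (-1 + ∑ i, mb M x i * mb M v i) < 0 :=
        mul_neg_of_pos_of_neg hpos (by linarith)
      linarith
    · intro h1
      have : 0 ≤ tau M x * tau M v * (-1 + ∑ i, mb M x i * mb M v i) :=
        mul_nonneg hpos.le (by linarith)
      linarith
  have hb := mb_sphere hM
  ext y
  constructor
  · rintro ⟨x, ⟨hx1, hx2⟩, rfl⟩
    exact ⟨hb.mapsTo hx1, (hcap x hx1).1 hx2⟩
  · rintro ⟨hy1, hy2⟩
    obtain ⟨x, hx, rfl⟩ := hb.surjOn hy1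
    exact ⟨x, ⟨hx, (hcap x hx).2 hy2⟩, rfl⟩

end Pool.Agent.Q223.Mob
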